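import Pool.Agent.D0H84.LS.Final
import Pool.Agent.H28R3.DM.Low

/-! Two sequences of homogeneous elements: no relation modulo words of large length. -/

set_option autoImplicit false

namespace Pool.Agent.D0H34.GR

open Pool.Agent.H777R4.DM
open Pool.Agent.D0H84.LS (LP small homog)

attribute [local instance 100] LieRing.ofAssociativeRing

/-- leading terms (a form of `Low.low`) -/
theorem low_term {f : Fin 2 → A} {w : Fin 2 → ℕ} (hf : ∀ i u, co (f i) u ≠ 0 → w i ≤ u.length)
    (hinj : Function.Injective (Phi (comp (w 0) (f 0)) (comp (w 1) (f 1)))) (P : A) (n : ℕ)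
    (h0 : ∃ u, co P u ≠ 0 ∧ Pool.Agent.H28R3.DM.Low.wt w u = n)
    (hmin : ∀ u, co P u ≠ 0 → n ≤ Pool.Agent.H28R3.DM.Low.wt w u) :
    ∃ l : List (Fin 2), l.length = n ∧ co (Phi (f 0) (f 1) P) l ≠ 0 := by
  classical
  by_contra hcon
  push Not at hcon
  rw [← LinearMap.ker_eq_bot, LinearMap.ker_eq_bot'] at hinj
  obtain ⟨u0, hu0, hn0⟩ := h0
  open Pool.Agent.H28R3.DM.Low in
  obtain ⟨Q, hQ⟩ : ∃ Q : A, Q = ∑ m ∈ P.coeff.support,
      if wt w (FreeMonoid.toList m) = n then P.coeff m • (wd (FreeMonoid.toList m) : A) else 0 :=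
    ⟨_, rfl⟩
  open Pool.Agent.H28R3.DM.Low in
  have happ : App n (Phi (f 0) (f 1) P) (Phi (comp (w 0) (f 0)) (comp (w 1) (f 1)) Q) := by
    have h1 : Phi (f 0) (f 1) P = ∑ m ∈ P.coeff.support,
        P.coeff m • Phi (f 0) (f 1) (wd (FreeMonoid.toList m)) := by
      conv_lhs => rw [expand P]
      rw [map_sum]
      refine Finset.sum_congr rfl fun m _ => ?_
      rw [map_smul]
    have h2 : Phi (comp (w 0) (f 0)) (comp (w 1) (f 1)) Q = ∑ m ∈ P.coeff.support,
        if wt w (FreeMonoid.toList m) = n then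
          P.coeff m • Phi (comp (w 0) (f 0)) (comp (w 1) (f 1)) (wd (FreeMonoid.toList m))
        else 0 := by
      rw [hQ, map_sum]
      refine Finset.sum_congr rfl fun m _ => ?_
      split_ifs
      · rw [map_smul]
      · rw [map_zero]
    rw [h1, h2]
    refine ⟨Submodule.sum_mem _ fun m hm => ?_, ?_⟩
    · split_ifs with h
      · have := (app_Phi hf (FreeMonoid.toList m)).1
        rw [h] at this
        exact Submodule.smul_mem _ _ this
      · exact Submodule.zero_mem _
    · rw [← Finset.sum_sub_distrib]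
      refine Submodule.sum_mem _ fun m hm => ?_
      have hge : n ≤ wt w (FreeMonoid.toList m) := hmin _ (Finsupp.mem_support_iff.1 hm)
      split_ifs with h
      · rw [← smul_sub]
        have := (app_Phi hf (FreeMonoid.toList m)).2
        rw [h] at this
        exact Submodule.smul_mem _ _ this
      · rw [sub_zero]
        exact Submodule.smul_mem _ _ (G_le (by omega) (app_Phi hf (FreeMonoid.toList m)).mem)
  open Pool.Agent.H28R3.DM.Low in
  have hzero : Phi (comp (w 0) (f 0)) (comp (w 1) (f 1)) Q = 0 := by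
    obtain ⟨ha, hb⟩ := happ
    apply co_ext
    intro l
    by_cases hl : l.length = n
    · have h3 := co_of_mem hb l (by omega)
      rw [Pool.Agent.H777R4.DM.co_sub, hcon l hl, zero_sub, neg_eq_zero] at h3
      rw [h3]; rfl
    · rw [co_of_mem ha l hl]
      rfl
  have hQ0 := hinj Q hzero
  open Pool.Agent.H28R3.DM.Low in
  have hc : co Q u0 = co P u0 := by
    rw [hQ]
    unfold co
    rw [MonoidAlgebra.coeff_sum, Finsupp.finsetSum_apply,
      Finset.sum_eq_single (FreeMonoid.ofList u0)]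
    · have e : wt w (FreeMonoid.toList (FreeMonoid.ofList u0)) = n := hn0
      rw [if_pos e]
      rw [MonoidAlgebra.coeff_smul, Finsupp.smul_apply, wd_eq, MonoidAlgebra.coeff_single]
      simp
    · intro m _ hm
      split_ifs
      · rw [MonoidAlgebra.coeff_smul, Finsupp.smul_apply, wd_eq, MonoidAlgebra.coeff_single,
          Finsupp.single_apply, if_neg]
        · simp
        · exact fun h => hm h
      · rfl
    · intro hm
      rw [Finsupp.notMem_support_iff] at hm
      rw [hm]
      split_ifs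
      · simp
      · rfl
  rw [hQ0] at hc
  exact hu0 (by rw [← hc]; rfl)

/-- partial sums -/
noncomputable def ps (f : ℕ → A) (n : ℕ) : A := ∑ m ∈ Finset.range (n + 1), f m

lemma co_fsum {ι : Type} (s : Finset ι) (F : ι → A) (u : List (Fin 2)) :
    co (∑ m ∈ s, F m) u = ∑ m ∈ s, co (F m) u := by
  unfold co
  rw [MonoidAlgebra.coeff_sum, Finsupp.finsetSum_apply]

lemma co_ps {f : ℕ → A} (lf : ∀ m, LenHom (f m) m) (n : ℕ) (u : List (Fin 2)) :
    co (ps f n) u = if u.length ≤ n then co (f u.length) u else 0 := by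
  unfold ps
  rw [co_fsum]
  split_ifs with h
  · rw [Finset.sum_eq_single u.length]
    · intro m _ hm
      by_contra hne
      exact hm (lf m u hne).symm
    · intro hm
      exact absurd (Finset.mem_range.2 (by omega)) hm
  · refine Finset.sum_eq_zero fun m hm => ?_
    by_contra hne
    have h1 := lf m u hne
    have h2 := Finset.mem_range.1 hm
    omega

lemma comp_ps {f : ℕ → A} (lf : ∀ m, LenHom (f m) m) {n a : ℕ} (ha : a ≤ n) : comp a (ps f n) = f a := by
  apply al_ext
  intro u
  rw [co_comp, co_ps lf]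
  by_cases h : u.length = a
  · rw [if_pos h, if_pos (by omega), h]
  · rw [if_neg h]
    by_contra hne
    exact h (lf a u (Ne.symm hne))

lemma low_ps {f : ℕ → A} (lf : ∀ m, LenHom (f m) m) {n a : ℕ} (ha : ∀ m < a, f m = 0) (u : List (Fin 2))
    (hu : co (ps f n) u ≠ 0) : a ≤ u.length := by
  rw [co_ps lf] at hu
  split_ifs at hu with h
  · by_contra hlt
    rw [ha _ (by omega), co_zero] at hu
    exact hu rfl
  · exact absurd rfl hu

lemma wt_le (w : Fin 2 → ℕ) (c : ℕ) (h0 : w 0 ≤ c) (h1 : w 1 ≤ c) (u : List (Fin 2)) :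
    Pool.Agent.H28R3.DM.Low.wt w u ≤ c * u.length := by
  induction u with
  | nil => simp [Pool.Agent.H28R3.DM.Low.wt]
  | cons i u ih =>
    have hi : w i ≤ c := by
      match i with
      | 0 => exact h0
      | 1 => exact h1
    simp only [Pool.Agent.H28R3.DM.Low.wt, List.map_cons, List.sum_cons, List.length_cons] at ih ⊢
    rw [mul_add, mul_one]
    omega

/-- the case of independent lowest parts -/
theorem core1 {K : A → Prop} (hK : LP K) {f g : ℕ → A} (hf : ∀ m, K (f m)) (hg : ∀ m, K (g m))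
    (lf : ∀ m, LenHom (f m) m) (lg : ∀ m, LenHom (g m) m) {a b : ℕ} (ha : ∀ m < a, f m = 0)
    (hb : ∀ m < b, g m = 0) (hind : ∀ α β : ℚ, α • f a + β • g b = 0 → α = 0 ∧ β = 0) (n : ℕ)
    (hn : max a b ≤ n) (R : A) (hR : ∀ l, l.length ≤ n → co (Phi (ps f n) (ps g n) R) l = 0)
    (u : List (Fin 2)) (hu : co R u ≠ 0) : n < max a b * u.length := by
  classical
  by_contra hcon
  push Not at hcon
  have hinj : Function.Injective (Phi (comp (![a, b] 0) (![ps f n, ps g n] 0))
      (comp (![a, b] 1) (![ps f n, ps g n] 1))) := by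
    show Function.Injective (Phi (comp a (ps f n)) (comp b (ps g n)))
    rw [comp_ps lf (le_trans (le_max_left a b) hn), comp_ps lg (le_trans (le_max_right a b) hn)]
    exact homog hK (hf a) (hg b) (lf a) (lg b) hind
  have hex : ∃ n, ∃ u, co R u ≠ 0 ∧ Pool.Agent.H28R3.DM.Low.wt ![a, b] u = n := ⟨_, u, hu, rfl⟩
  obtain ⟨n0, h0, hmin⟩ : ∃ n, (∃ u, co R u ≠ 0 ∧ Pool.Agent.H28R3.DM.Low.wt ![a, b] u = n) ∧
      ∀ m, m < n → ¬ ∃ u, co R u ≠ 0 ∧ Pool.Agent.H28R3.DM.Low.wt ![a, b] u = m :=
    ⟨Nat.find hex, Nat.find_spec hex, fun m hm => Nat.find_min hex hm⟩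
  have hmin' : ∀ v, co R v ≠ 0 → n0 ≤ Pool.Agent.H28R3.DM.Low.wt ![a, b] v := by
    intro v hv
    by_contra hlt
    exact hmin _ (not_le.1 hlt) ⟨v, hv, rfl⟩
  obtain ⟨l, hl, hne⟩ := low_term (f := ![ps f n, ps g n]) (w := ![a, b]) (by
    rw [Fin.forall_fin_two]
    exact ⟨fun u hu => low_ps lf ha u hu, fun u hu => low_ps lg hb u hu⟩) hinj R n0 h0 hmin'
  apply hne
  apply hR
  rw [hl]
  exact le_trans (hmin' u hu) (le_trans (wt_le _ (max a b) (le_max_left a b) (le_max_right a b) u) hcon)

lemma exists_lowest {f : ℕ → A} (h : ∃ m, f m ≠ 0) : ∃ a, f a ≠ 0 ∧ ∀ m < a, f m = 0 := by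
  classical
  refine ⟨Nat.find h, Nat.find_spec h, fun m hm => ?_⟩
  by_contra hne
  exact Nat.find_min h hm hne

/-- **No relations modulo words of large length.** -/
theorem core {K : A → Prop} (hK : LP K) {f g : ℕ → A} (hf : ∀ m, K (f m)) (hg : ∀ m, K (g m))
    (lf : ∀ m, LenHom (f m) m) (lg : ∀ m, LenHom (g m) m)
    (hind : ∀ α β : ℚ, (∀ m, α • f m + β • g m = 0) → α = 0 ∧ β = 0) :
    ∃ (κ : ℚ) (c : ℕ), ∀ (n : ℕ) (R : A), c ≤ n →
      (∀ l, l.length ≤ n → co (Phi (ps f n) (ps g n) R) l = 0) →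
      ∀ u, co (shear κ R) u ≠ 0 → n < c * u.length := by
  have nf : ∃ m, f m ≠ 0 := by
    by_contra h
    push Not at h
    have := (hind 1 0 (fun m => by rw [h m]; simp)).1
    exact one_ne_zero this
  have ng : ∃ m, g m ≠ 0 := by
    by_contra h
    push Not at h
    have := (hind 0 1 (fun m => by rw [h m]; simp)).2
    exact one_ne_zero this
  obtain ⟨a, fa, ha⟩ := exists_lowest nf
  obtain ⟨b, gb, hb⟩ := exists_lowest ng
  by_cases hab : ∀ α β : ℚ, α • f a + β • g b = 0 → α = 0 ∧ β = 0
  · refine ⟨0, max a b, fun n R hn hR u hu => ?_⟩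
    have e : shear 0 R = R := by
      have : shear 0 = AlgHom.id ℚ A := by
        apply algHom_ext_x
        · rw [shear_x0, AlgHom.id_apply]
        · rw [shear_x1, AlgHom.id_apply, zero_smul, add_zero]
      rw [this, AlgHom.id_apply]
    rw [e] at hu
    exact core1 hK hf hg lf lg ha hb hab n hn R hR u hu
  · push Not at hab
    obtain ⟨α, β, h1, h2⟩ := hab
    have heq : a = b := by
      by_contra hne
      obtain ⟨h3, h4⟩ := indep_of_ne (lf a) (lg b) fa gb hne α β h1
      exact h2 h3 h4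
    subst heq
    have hβ : β ≠ 0 := by
      intro hβ
      have hα : α ≠ 0 := fun hα => h2 hα hβ
      rw [hβ, zero_smul, add_zero] at h1
      exact fa ((smul_eq_zero.mp h1).resolve_left hα)
    obtain ⟨κ, hκ⟩ : ∃ κ : ℚ, g a = κ • f a := by
      refine ⟨-(β⁻¹ * α), ?_⟩
      have h3 : β • g a = - (α • f a) := eq_neg_of_add_eq_zero_right h1
      have h4 : g a = β⁻¹ • (β • g a) := by rw [smul_smul, inv_mul_cancel₀ hβ, one_smul]
      rw [h4, h3]
      module
    have hg' : ∀ m, K (g m - κ • f m) := fun m => hK.sub (f m) (g m) κ (hf m) (hg m)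
    have lg' : ∀ m, LenHom (g m - κ • f m) m := fun m => lenHom_sub (lf m) (lg m) κ
    have ng' : ∃ m, g m - κ • f m ≠ 0 := by
      by_contra h
      push Not at h
      have := (hind (-κ) 1 (fun m => by rw [← h m]; module)).2
      exact one_ne_zero this
    obtain ⟨b', gb', hb'⟩ := exists_lowest ng'
    have hne : a ≠ b' := by
      rintro rfl
      apply gb'
      rw [hκ, sub_self]
    refine ⟨κ, max a b', fun n R hn hR u hu => ?_⟩
    refine core1 hK hf hg' lf lg' ha hb' (indep_of_ne (lf a) (lg' b') fa gb' hne) n hn (shear κ R) ?_ u hu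
    intro l hl
    rw [← hR l hl]
    have e : ps g n = ps (fun m => g m - κ • f m) n + κ • ps f n := by
      unfold ps
      rw [Finset.smul_sum, ← Finset.sum_add_distrib]
      refine Finset.sum_congr rfl fun m _ => ?_
      abel
    have e2 : Phi (ps f n) (ps g n) R = Phi (ps f n) (ps (fun m => g m - κ • f m) n) (shear κ R) := by
      unfold Phi
      rw [LinearMap.comp_apply, LinearMap.comp_apply]
      congr 1
      have e3 : s (ps g n) = s (ps (fun m => g m - κ • f m) n) + κ • s (ps f n) := by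
        rw [e, s_add, s_smul]
      rw [e3]
      exact lift_shear _ _ κ R
    rw [e2]

end Pool.Agent.D0H34.GR
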