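import Pool.Agent.D0H34.GR.Mag
import Mathlib.RingTheory.Nilpotent.Exp

/-! The exponentials of the operators `s_f` on the truncations, and the group that two of them generate. -/

set_option autoImplicit false

namespace Pool.Agent.D0H34.GR

open Pool.Agent.H777R4.DM
open Pool.Agent.D0H84.LS (LP small)
open Pool.Agent.H28R3.DM

attribute [local instance 100] LieRing.ofAssociativeRing

/-- the span of the words of length `> n` in `ℚ⟨x₀, x₁⟩` -/
noncomputable def T (n : ℕ) : Submodule ℚ A :=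
  Submodule.span ℚ {P | ∃ l : List (Fin 2), n < l.length ∧ P = wd l}

/-- the truncation `ℚ⟨x₀, x₁⟩ / (words of length > n)` -/
abbrev V (n : ℕ) : Type := A ⧸ T n

lemma T_eq (n : ℕ) : T n = Low.G (n + 1) := rfl

lemma mem_G0 (f : A) : f ∈ (Low.G 0 : Submodule ℚ A) := Low.mem_of_co fun _ _ => Nat.zero_le _

lemma s_G {f P : A} {a k : ℕ} (hf : f ∈ (Low.G a : Submodule ℚ A)) (hP : P ∈ (Low.G k : Submodule ℚ A)) :
    s f P ∈ (Low.G (a + k) : Submodule ℚ A) := by
  have e : s f P = f * P + der f P := rfl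
  rw [e]
  refine Submodule.add_mem _ ?_ (Low.der_G hf hP)
  exact Low.S_mul (fun l l' h h' => by rw [List.length_append]; exact add_le_add h h') hf hP

lemma s_T (f : A) (n : ℕ) : T n ≤ (T n).comap (s f) := by
  intro P hP
  have := s_G (mem_G0 f) hP
  rw [Nat.zero_add] at this
  exact this

/-- the operator `s_F : g ↦ F g + D_F g`, `F = ∑ f_m`, on the truncation -/
noncomputable def opn (f : ℕ → A) (n : ℕ) : Module.End ℚ (V n) :=
  (T n).mapQ (T n) (s (ps f n)) (s_T (ps f n) n)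

lemma opn_mk (f : ℕ → A) (n : ℕ) (P : A) : opn f n ((T n).mkQ P) = (T n).mkQ (s (ps f n) P) := rfl

lemma opn_pow_mk (f : ℕ → A) (n k : ℕ) (P : A) :
    (opn f n ^ k) ((T n).mkQ P) = (T n).mkQ ((s (ps f n) ^ k) P) := by
  induction k generalizing P with
  | zero => rfl
  | succ k ih =>
    rw [pow_succ, pow_succ, Module.End.mul_apply, Module.End.mul_apply, opn_mk, ih]

lemma s_pow_G {f : A} (hf : f ∈ (Low.G 1 : Submodule ℚ A)) (k : ℕ) (P : A) :
    (s f ^ k) P ∈ (Low.G k : Submodule ℚ A) := by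
  induction k with
  | zero => exact mem_G0 P
  | succ k ih =>
    rw [pow_succ', Module.End.mul_apply, Nat.add_comm k 1]
    exact s_G hf ih

lemma opn_pow {f : ℕ → A} {n : ℕ} (hf : ps f n ∈ (Low.G 1 : Submodule ℚ A)) : opn f n ^ (n + 1) = 0 := by
  refine LinearMap.ext fun v => ?_
  obtain ⟨P, rfl⟩ := Submodule.mkQ_surjective _ v
  rw [opn_pow_mk, LinearMap.zero_apply, Submodule.mkQ_apply, Submodule.Quotient.mk_eq_zero]
  exact s_pow_G hf (n + 1) P

/-- **The exponential of `s_F`**, `F = ∑ f_m`, as a compatible system of automorphisms of the truncations -/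
noncomputable def Exp (f : ℕ → A) : ∀ n : ℕ, (Module.End ℚ (V n))ˣ := fun n =>
  open Classical in if h : IsNilpotent (opn f n) then (IsNilpotent.isUnit_exp h).unit else 1

lemma Exp_val {f : ℕ → A} {n : ℕ} (h : IsNilpotent (opn f n)) :
    ((Exp f n : (Module.End ℚ (V n))ˣ) : Module.End ℚ (V n)) = IsNilpotent.exp (opn f n) := by
  unfold Exp
  rw [dif_pos h]
  rfl

lemma Exp_inv {f : ℕ → A} {n : ℕ} (h : IsNilpotent (opn f n)) :
    (((Exp f n)⁻¹ : (Module.End ℚ (V n))ˣ) : Module.End ℚ (V n)) = IsNilpotent.exp (-opn f n) := by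
  have h1 : (Exp f n)⁻¹ = ⟨IsNilpotent.exp (-opn f n), IsNilpotent.exp (opn f n),
      IsNilpotent.exp_neg_mul_exp_self h, IsNilpotent.exp_mul_exp_neg_self h⟩ := by
    rw [inv_eq_iff_eq_inv]
    apply Units.ext
    rw [Exp_val h]
    rfl
  rw [h1]

/-- the exponential on a class -/
lemma exp_mk {f : ℕ → A} {n : ℕ} (hf : ps f n ∈ (Low.G 1 : Submodule ℚ A)) (c : ℚ) (P : A) :
    IsNilpotent.exp (c • opn f n) ((T n).mkQ P) = (T n).mkQ (En n (c • s (ps f n)) P) := by
  have h0 : (c • opn f n) ^ (n + 1) = 0 := by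
    rw [smul_pow, opn_pow hf, smul_zero]
  rw [IsNilpotent.exp_eq_sum h0]
  unfold En
  rw [LinearMap.sum_apply, LinearMap.sum_apply, map_sum]
  refine Finset.sum_congr rfl fun i _ => ?_
  rw [smul_pow, smul_pow, LinearMap.smul_apply, LinearMap.smul_apply, LinearMap.smul_apply, LinearMap.smul_apply,
    opn_pow_mk, map_smul, map_smul]

lemma lift_Exp {σ : Fin 2 → ℕ → A} {n : ℕ} (hσ : ∀ i, ps (σ i) n ∈ (Low.G 1 : Submodule ℚ A))
    (L : List (Fin 2 × Bool)) (P : A) :
    ((FreeGroup.lift (fun i => Exp (σ i)) (FreeGroup.mk L) n : (Module.End ℚ (V n))ˣ) : Module.End ℚ (V n))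
      ((T n).mkQ P) = (T n).mkQ (Pn n (fun i => s (ps (σ i) n)) L P) := by
  rw [FreeGroup.lift_mk]
  unfold Pn
  induction L with
  | nil => rfl
  | cons p L ih =>
    rw [List.map_cons, List.prod_cons, List.map_cons, List.prod_cons, Pi.mul_apply, Units.val_mul,
      Module.End.mul_apply, ih, Module.End.mul_apply]
    obtain ⟨i, b⟩ := p
    have hn : IsNilpotent (opn (σ i) n) := ⟨n + 1, opn_pow (hσ i)⟩
    cases b with
    | true =>
      have e : ((bif true then Exp (σ i) else (Exp (σ i))⁻¹) : ∀ n : ℕ, (Module.End ℚ (V n))ˣ) n = Exp (σ i) n := rfl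
      have e2 : sg true = 1 := rfl
      show (((bif true then Exp (σ i) else (Exp (σ i))⁻¹) : ∀ n : ℕ, (Module.End ℚ (V n))ˣ) n :
        Module.End ℚ (V n)) _ = (T n).mkQ (En n (sg true • s (ps (σ i) n)) _)
      rw [e, Exp_val hn, e2, ← exp_mk (hσ i), one_smul]
    | false =>
      have e : ((bif false then Exp (σ i) else (Exp (σ i))⁻¹) : ∀ n : ℕ, (Module.End ℚ (V n))ˣ) n =
        (Exp (σ i) n)⁻¹ := rfl
      have e2 : sg false = -1 := rfl
      show (((bif false then Exp (σ i) else (Exp (σ i))⁻¹) : ∀ n : ℕ, (Module.End ℚ (V n))ˣ) n :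
        Module.End ℚ (V n)) _ = (T n).mkQ (En n (sg false • s (ps (σ i) n)) _)
      have e3 : (-1 : ℚ) • opn (σ i) n = -opn (σ i) n := LinearMap.ext fun v => neg_one_smul ℚ (opn (σ i) n v)
      rw [e, Exp_inv hn, e2, ← exp_mk (hσ i), e3]

lemma Pn_one (f g : A) (n : ℕ) (e : Fin 2 → Module.End ℚ A) (he : ∀ i, e i = s (![f, g] i))
    (L : List (Fin 2 × Bool)) : Pn n e L 1 = Phi f g (Pn n x L) := by
  have h : Phi f g (Pn n x L) = (MonoidAlgebra.lift ℚ (Module.End ℚ A) (FreeMonoid (Fin 2))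
      (FreeMonoid.lift ![s f, s g]) (Pn n x L)) 1 := rfl
  rw [h, map_Pn]
  congr 2
  funext i
  rw [he i]
  have h2 : MonoidAlgebra.lift ℚ (Module.End ℚ A) (FreeMonoid (Fin 2)) (FreeMonoid.lift ![s f, s g]) (x i) =
      ![s f, s g] i := lift_x _ i
  rw [h2]
  match i with
  | 0 => rfl
  | 1 => rfl

lemma ps_G1 {f : ℕ → A} (lf : ∀ m, LenHom (f m) m) (h0 : f 0 = 0) (n : ℕ) :
    ps f n ∈ (Low.G 1 : Submodule ℚ A) := by
  refine Low.mem_of_co fun u hu => ?_
  refine low_ps lf (fun m hm => ?_) u hu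
  obtain rfl : m = 0 := by omega
  exact h0

/-- **Freeness.** Linearly independent elements have exponentials that generate a free group. -/
theorem free {K : A → Prop} (hK : LP K) (σ : Fin 2 → ℕ → A) (hσ : ∀ i m, K (σ i m))
    (lσ : ∀ i m, LenHom (σ i m) m)
    (hind : ∀ α β : ℚ, (∀ m, α • σ 0 m + β • σ 1 m = 0) → α = 0 ∧ β = 0) :
    Function.Injective (FreeGroup.lift fun i => Exp (σ i)) := by
  have h0 : ∀ i, σ i 0 = 0 := by
    intro i
    apply Low.co_ext
    intro l
    by_contra hne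
    have h1 : co (σ i 0) l ≠ 0 := hne
    have h2 := lσ i 0 l h1
    have h3 := (small (hK.mem _ (hσ i 0)) (hK.c0 _ (hσ i 0)) (hK.c1 _ (hσ i 0)) (hK.c01 _ (hσ i 0)) l h1).1
    omega
  obtain ⟨κ, c, hc⟩ := core hK (hσ 0) (hσ 1) (lσ 0) (lσ 1) hind
  rw [injective_iff_map_eq_one]
  intro a ha
  obtain ⟨L, rfl⟩ : ∃ L, FreeGroup.mk L = a := ⟨a.toWord, FreeGroup.mk_toWord⟩
  apply mag L κ c
  intro n hn
  refine hc n (Pn n x L - 1) hn ?_
  intro l hl
  have h1 : (T n).mkQ (Pn n (fun i => s (ps (σ i) n)) L 1) = (T n).mkQ 1 := by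
    rw [← lift_Exp (fun i => ps_G1 (lσ i) (h0 i) n) L 1, ha]
    rfl
  rw [Pn_one (ps (σ 0) n) (ps (σ 1) n) n _ (by
    intro i
    match i with
    | 0 => rfl
    | 1 => rfl) L, ← sub_eq_zero, ← map_sub, Submodule.mkQ_apply, Submodule.Quotient.mk_eq_zero, T_eq] at h1
  have h2 : Phi (ps (σ 0) n) (ps (σ 1) n) (Pn n x L - 1) = Phi (ps (σ 0) n) (ps (σ 1) n) (Pn n x L) - 1 := by
    rw [map_sub]
    congr 1
    have h3 : MonoidAlgebra.lift ℚ (Module.End ℚ A) (FreeMonoid (Fin 2)) (FreeMonoid.lift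
      ![s (ps (σ 0) n), s (ps (σ 1) n)]) 1 = 1 := map_one _
    show (MonoidAlgebra.lift ℚ (Module.End ℚ A) (FreeMonoid (Fin 2)) (FreeMonoid.lift
      ![s (ps (σ 0) n), s (ps (σ 1) n)]) 1) 1 = 1
    rw [h3]
    rfl
  rw [h2]
  exact Low.co_of_mem h1 l (by omega)

lemma opn_smul (f : ℕ → A) (c : ℚ) (n : ℕ) : opn (fun m => c • f m) n = c • opn f n := by
  refine LinearMap.ext fun v => ?_
  obtain ⟨P, rfl⟩ := Submodule.mkQ_surjective _ v
  rw [opn_mk, LinearMap.smul_apply, opn_mk]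
  have : ps (fun m => c • f m) n = c • ps f n := by
    unfold ps
    rw [Finset.smul_sum]
  rw [this, s_smul, LinearMap.smul_apply, map_smul]

lemma commute_exp {B : Type} [Ring B] [Module ℚ B] [IsScalarTower ℚ B B] [SMulCommClass ℚ B B]
    {a b : B} (h : Commute a b) : Commute (IsNilpotent.exp a) (IsNilpotent.exp b) := by
  unfold IsNilpotent.exp
  refine Commute.sum_left _ _ _ fun i _ => Commute.sum_right _ _ _ fun j _ => ?_
  exact Commute.smul_left (Commute.smul_right (h.pow_pow i j) _) _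

/-- the exponentials of proportional elements commute -/
theorem comm (f : ℕ → A) (c : ℚ) : Commute (Exp f) (Exp fun m => c • f m) := by
  have h : ∀ n, Commute (Exp f n) (Exp (fun m => c • f m) n) := by
    intro n
    have hc : Commute (opn f n) (opn (fun m => c • f m) n) := by
      rw [opn_smul]
      exact Commute.smul_right (Commute.refl _) c
    by_cases h1 : IsNilpotent (opn f n)
    · by_cases h2 : IsNilpotent (opn (fun m => c • f m) n)
      · apply Units.ext
        rw [Units.val_mul, Units.val_mul, Exp_val h1, Exp_val h2]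
        exact commute_exp hc
      · have : Exp (fun m => c • f m) n = 1 := by
          unfold Exp
          rw [dif_neg h2]
        rw [this]
        exact Commute.one_right _
    · have : Exp f n = 1 := by
        unfold Exp
        rw [dif_neg h1]
      rw [this]
      exact Commute.one_left _
  exact funext h

end Pool.Agent.D0H34.GR
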