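import Pool.Agent.D0H34.GR.Core
import Pool.Agent.H139R3.BO.FreeInj

/-! Exponentials of two free letters generate a free group: the form that is needed. -/

set_option autoImplicit false

namespace Pool.Agent.D0H34.GR

open Pool.Agent.H777R4.DM Polynomial

attribute [local instance 100] LieRing.ofAssociativeRing

/-- signs -/
def sg (b : Bool) : ℚ := if b then 1 else -1

/-- truncated exponential in any `ℚ`-algebra -/
noncomputable def En {B : Type} [Ring B] [Algebra ℚ B] (n : ℕ) (a : B) : B :=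
  ∑ i ∈ Finset.range (n + 1), (i.factorial : ℚ)⁻¹ • a ^ i

lemma map_En {B C : Type} [Ring B] [Algebra ℚ B] [Ring C] [Algebra ℚ C] (φ : B →ₐ[ℚ] C) (n : ℕ) (a : B) :
    φ (En n a) = En n (φ a) := by
  unfold En
  rw [map_sum]
  refine Finset.sum_congr rfl fun i _ => ?_
  rw [map_smul, map_pow]

/-- products of truncated exponentials -/
noncomputable def Pn {B : Type} [Ring B] [Algebra ℚ B] (n : ℕ) (e : Fin 2 → B) (L : List (Fin 2 × Bool)) : B :=
  (L.map fun p => En n (sg p.2 • e p.1)).prod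

lemma map_Pn {B C : Type} [Ring B] [Algebra ℚ B] [Ring C] [Algebra ℚ C] (φ : B →ₐ[ℚ] C) (n : ℕ) (e : Fin 2 → B)
    (L : List (Fin 2 × Bool)) : φ (Pn n e L) = Pn n (fun i => φ (e i)) L := by
  unfold Pn
  rw [map_list_prod, List.map_map]
  congr 1
  apply List.map_congr_left
  intro p _
  rw [Function.comp_apply, map_En, map_smul]

/-- matrices over `ℚ[X]` -/
abbrev MQ : Type := Matrix (Fin 2) (Fin 2) ℚ[X]

/-- base change -/
noncomputable def bc : Pool.Agent.H139R3.BO.MM →+* MQ := (Polynomial.mapRingHom (Int.castRingHom ℚ)).mapMatrix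

lemma bc_injective : Function.Injective bc := by
  intro M N h
  refine Matrix.ext fun i j => ?_
  have := congrFun (congrFun h i) j
  exact Polynomial.map_injective _ Int.cast_injective this

/-- the two nilpotent matrices -/
noncomputable def NN : Fin 2 → MQ := ![bc Pool.Agent.H139R3.BO.N0, bc Pool.Agent.H139R3.BO.N1]

lemma NN_sq (i : Fin 2) : NN i * NN i = 0 := by
  match i with
  | 0 =>
    show bc Pool.Agent.H139R3.BO.N0 * bc Pool.Agent.H139R3.BO.N0 = 0
    rw [← map_mul, Pool.Agent.H139R3.BO.N0_sq, map_zero]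
  | 1 =>
    show bc Pool.Agent.H139R3.BO.N1 * bc Pool.Agent.H139R3.BO.N1 = 0
    rw [← map_mul, Pool.Agent.H139R3.BO.N1_sq, map_zero]

lemma NN_dvd (i : Fin 2) (a b : Fin 2) : (X : ℚ[X]) ∣ NN i a b := by
  match i with
  | 0 =>
    show (X : ℚ[X]) ∣ Polynomial.map (Int.castRingHom ℚ) (Pool.Agent.H139R3.BO.N0 a b)
    fin_cases a <;> fin_cases b <;> simp [Pool.Agent.H139R3.BO.N0]
  | 1 =>
    show (X : ℚ[X]) ∣ Polynomial.map (Int.castRingHom ℚ) (Pool.Agent.H139R3.BO.N1 a b)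
    fin_cases a <;> fin_cases b <;> simp [Pool.Agent.H139R3.BO.N1]

/-- `x₀ ↦ N₀`, `x₁ ↦ N₁ - κ N₀` -/
noncomputable def Mk (κ : ℚ) : A →ₐ[ℚ] MQ :=
  MonoidAlgebra.lift ℚ MQ (FreeMonoid (Fin 2)) (FreeMonoid.lift ![NN 0, NN 1 - κ • NN 0])

lemma Mk_x (κ : ℚ) (i : Fin 2) : Mk κ (x i) = ![NN 0, NN 1 - κ • NN 0] i := lift_x _ i

lemma Mk_x0 (κ : ℚ) : Mk κ (x 0) = NN 0 := by
  rw [Mk_x, Matrix.cons_val_zero]

lemma Mk_x1 (κ : ℚ) : Mk κ (x 1) = NN 1 - κ • NN 0 := by
  rw [Mk_x, Matrix.cons_val_one, Matrix.cons_val_zero]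

lemma Mk_shear (κ : ℚ) (P : A) : Mk κ (shear κ P) = Mk 0 P := by
  have h : (Mk κ).comp (shear κ) = Mk 0 := by
    apply algHom_ext_x
    · rw [AlgHom.comp_apply, shear_x0, Mk_x0, Mk_x0]
    · rw [AlgHom.comp_apply, shear_x1, map_add, map_smul, Mk_x0, Mk_x1, Mk_x1, sub_add_cancel, zero_smul,
        sub_zero]
  exact DFunLike.congr_fun h P

lemma Mk_dvd_x (κ : ℚ) (i : Fin 2) (a b : Fin 2) : (X : ℚ[X]) ∣ Mk κ (x i) a b := by
  match i with
  | 0 => rw [Mk_x0]; exact NN_dvd 0 a b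
  | 1 =>
    rw [Mk_x1, Matrix.sub_apply, Matrix.smul_apply]
    exact dvd_sub (NN_dvd 1 a b) (dvd_smul_of_dvd κ (NN_dvd 0 a b))

lemma Mk_wd (κ : ℚ) (u : List (Fin 2)) (a b : Fin 2) : (X : ℚ[X]) ^ u.length ∣ Mk κ (wd u) a b := by
  induction u generalizing a b with
  | nil => simp
  | cons i u ih =>
    have h : (wd (i :: u) : A) = x i * wd u := by rw [x, wd_mul]; rfl
    rw [h, map_mul, Matrix.mul_apply, List.length_cons, pow_succ']
    exact Finset.dvd_sum fun l _ => mul_dvd_mul (Mk_dvd_x κ i a l) (ih l b)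

lemma Mk_dvd (κ : ℚ) {k : ℕ} {P : A} (h : ∀ u, co P u ≠ 0 → k ≤ u.length) (a b : Fin 2) :
    (X : ℚ[X]) ^ k ∣ Mk κ P a b := by
  have hP := Pool.Agent.H28R3.DM.Low.mem_of_co (p := fun u => k ≤ u.length) h
  unfold Pool.Agent.H28R3.DM.Low.S at hP
  clear h
  induction hP using Submodule.span_induction with
  | mem y hy =>
    obtain ⟨l, hl, rfl⟩ := hy
    exact (pow_dvd_pow X hl).trans (Mk_wd κ l a b)
  | zero => rw [map_zero]; exact dvd_zero _
  | add y z _ _ hy hz =>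
    rw [map_add, Matrix.add_apply]
    exact dvd_add hy hz
  | smul c y _ hy =>
    rw [map_smul, Matrix.smul_apply]
    exact dvd_smul_of_dvd c hy

lemma En_sq {B : Type} [Ring B] [Algebra ℚ B] (n : ℕ) (hn : 1 ≤ n) (a : B) (ha : a * a = 0) :
    En n a = 1 + a := by
  unfold En
  obtain ⟨m, rfl⟩ : ∃ m, n = m + 1 := ⟨n - 1, by omega⟩
  rw [Finset.sum_range_succ', Finset.sum_range_succ']
  rw [Finset.sum_eq_zero]
  · simp [add_comm]
  · intro i _
    have : a ^ (i + 1 + 1) = 0 := by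
      rw [pow_succ, pow_succ, mul_assoc, ha, mul_zero]
    rw [this, smul_zero]

lemma gm_val (i : Fin 2) : bc ((Pool.Agent.H139R3.BO.gm i : Pool.Agent.H139R3.BO.MMˣ) : Pool.Agent.H139R3.BO.MM) =
    1 + NN i := by
  match i with
  | 0 =>
    show bc (1 + (1 : ℤ) • Pool.Agent.H139R3.BO.N0) = 1 + bc Pool.Agent.H139R3.BO.N0
    rw [one_smul, map_add, map_one]
  | 1 =>
    show bc (1 + (1 : ℤ) • Pool.Agent.H139R3.BO.N1) = 1 + bc Pool.Agent.H139R3.BO.N1
    rw [one_smul, map_add, map_one]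

lemma gm_inv (i : Fin 2) :
    bc (((Pool.Agent.H139R3.BO.gm i)⁻¹ : Pool.Agent.H139R3.BO.MMˣ) : Pool.Agent.H139R3.BO.MM) = 1 - NN i := by
  match i with
  | 0 =>
    show bc (1 - (1 : ℤ) • Pool.Agent.H139R3.BO.N0) = 1 - bc Pool.Agent.H139R3.BO.N0
    rw [one_smul, map_sub, map_one]
  | 1 =>
    show bc (1 - (1 : ℤ) • Pool.Agent.H139R3.BO.N1) = 1 - bc Pool.Agent.H139R3.BO.N1
    rw [one_smul, map_sub, map_one]

lemma Mk_Pn (n : ℕ) (hn : 1 ≤ n) (L : List (Fin 2 × Bool)) :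
    Mk 0 (Pn n x L) = bc ((Pool.Agent.H139R3.BO.rho (FreeGroup.mk L) : Pool.Agent.H139R3.BO.MMˣ) :
      Pool.Agent.H139R3.BO.MM) := by
  have h0 : ∀ i, Mk 0 (x i) = NN i := by
    intro i
    match i with
    | 0 => exact Mk_x0 0
    | 1 => rw [Mk_x1, zero_smul, sub_zero]
  rw [map_Pn, Pool.Agent.H139R3.BO.rho, FreeGroup.lift_mk]
  unfold Pn
  induction L with
  | nil => simp
  | cons p L ih =>
    rw [List.map_cons, List.prod_cons, List.map_cons, List.prod_cons, Units.val_mul, map_mul, ← ih]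
    congr 1
    obtain ⟨i, b⟩ := p
    show En n (sg b • Mk 0 (x i)) = _
    rw [h0]
    cases b with
    | true =>
      show En n (sg true • NN i) = bc ((Pool.Agent.H139R3.BO.gm i : Pool.Agent.H139R3.BO.MMˣ) : _)
      rw [gm_val, sg, if_pos rfl, one_smul, En_sq n hn _ (NN_sq i)]
    | false =>
      show En n (sg false • NN i) = bc (((Pool.Agent.H139R3.BO.gm i)⁻¹ : Pool.Agent.H139R3.BO.MMˣ) : _)
      rw [gm_inv, sg, if_neg (by simp), neg_one_smul, En_sq n hn _ (by rw [neg_mul_neg, NN_sq i])]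
      abel

/-- the product of the exponentials is nontrivial for a nontrivial element of the free group -/
theorem mag (L : List (Fin 2 × Bool)) (κ : ℚ) (c : ℕ)
    (h : ∀ n, c ≤ n → ∀ u, co (shear κ (Pn n x L - 1)) u ≠ 0 → n < c * u.length) :
    FreeGroup.mk L = (1 : FreeGroup (Fin 2)) := by
  apply Pool.Agent.H139R3.BO.rho_injective
  rw [map_one]
  apply Units.ext
  apply bc_injective
  rw [Units.val_one, map_one, ← sub_eq_zero]
  have key : ∀ k a b, (X : ℚ[X]) ^ k ∣ (bc ((Pool.Agent.H139R3.BO.rho (FreeGroup.mk L) :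
      Pool.Agent.H139R3.BO.MMˣ) : Pool.Agent.H139R3.BO.MM) - 1) a b := by
    intro k a b
    have h1 := Mk_Pn (c * k + c + 1) (by omega) L
    rw [← h1]
    have h2 : Mk 0 (Pn (c * k + c + 1) x L) - 1 = Mk κ (shear κ (Pn (c * k + c + 1) x L - 1)) := by
      rw [Mk_shear, map_sub, map_one]
    rw [h2]
    apply Mk_dvd
    intro u hu
    have h3 := h (c * k + c + 1) (by omega) u hu
    by_contra hlt
    push Not at hlt
    have : c * u.length ≤ c * k := Nat.mul_le_mul_left c hlt.le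
    omega
  refine Matrix.ext fun a b => ?_
  apply Polynomial.ext
  intro m
  rw [Matrix.zero_apply, Polynomial.coeff_zero]
  exact Polynomial.X_pow_dvd_iff.1 (key (m + 1) a b) m (Nat.lt_succ_self m)

end Pool.Agent.D0H34.GR
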