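import Pool.Agent.D0H34.GR.Grp
import Pool.Agent.D0H34.FU.Fin

/-! Pairs of elements of the prounipotent groups of `𝔡𝔪` and `𝔤𝔯𝔱₁`. -/

set_option autoImplicit false

namespace Pool.Agent.D0H34.GR

open Pool.Agent.H777R4.DM
open Pool.Agent.D0H84.LS (LP)

attribute [local instance 100] LieRing.ofAssociativeRing

theorem lp_dm : LP IsDM where
  mem := fun _ h => h.mem
  c0 := fun _ h => h.c0
  c1 := fun _ h => h.c1
  c01 := fun _ h => h.c01
  sub := fun _ _ κ h₁ h₂ => isDM_sub h₁ h₂ κ
  comp := fun ψ w h => Pool.Agent.H217R3.DMC.taskComp ψ w h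
  lead := fun ψ h r hr hdep => Pool.Agent.H466R3.DMPrim0.prim0 ψ h r hr hdep (Fp r ψ 0) (by
    intro v
    rw [co_Fp, List.replicate_zero, List.append_nil])

theorem two_cases {K : A → Prop} (hK : LP K) (σ : Fin 2 → ℕ → A) (hσ : ∀ i m, K (σ i m))
    (lσ : ∀ i m, LenHom (σ i m) m) :
    (LinearIndependent ℚ σ → Function.Injective (FreeGroup.lift fun i => Exp (σ i))) ∧
    (¬ LinearIndependent ℚ σ → Commute (Exp (σ 0)) (Exp (σ 1))) := by
  have hp : LinearIndependent ℚ σ ↔ ∀ α β : ℚ, (∀ m, α • σ 0 m + β • σ 1 m = 0) → α = 0 ∧ β = 0 := by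
    have e : σ = ![σ 0, σ 1] := by
      funext i
      match i with
      | 0 => rfl
      | 1 => rfl
    rw [e, LinearIndependent.pair_iff]
    constructor
    · intro h α β hab
      exact h α β (funext hab)
    · intro h α β hab
      exact h α β (fun m => congrFun hab m)
  constructor
  · intro h
    exact free hK σ hσ lσ (hp.1 h)
  · intro h
    rw [hp] at h
    push Not at h
    obtain ⟨α, β, h1, h2⟩ := h
    by_cases hα : α = 0
    · have hβ : β ≠ 0 := h2 hα
      have e : σ 1 = fun m => (0 : ℚ) • σ 0 m := by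
        funext m
        have h3 := h1 m
        rw [hα, zero_smul, zero_add] at h3
        rw [zero_smul]
        exact (smul_eq_zero.mp h3).resolve_left hβ
      rw [e]
      exact comm (σ 0) 0
    · have e : σ 0 = fun m => (-(α⁻¹ * β)) • σ 1 m := by
        funext m
        have h3 : α • σ 0 m = - (β • σ 1 m) := eq_neg_of_add_eq_zero_left (h1 m)
        have h4 : σ 0 m = α⁻¹ • (α • σ 0 m) := by rw [smul_smul, inv_mul_cancel₀ hα, one_smul]
        rw [h4, h3]
        module
      rw [e]
      exact (comm (σ 1) _).symm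

open Pool.Agent.Helper392_GT Pool.Agent.D0H34.FU

theorem grt_cases (σ : Fin 2 → ℕ → F2 ℚ) (h : ∀ i m, σ i m ∈ grtSub ℚ)
    (hw : ∀ i m u, wordCoeff ℚ (σ i m) u ≠ 0 → u.toList.length = m) :
    (LinearIndependent ℚ σ → Function.Injective (FreeGroup.lift fun i => Exp fun m => bri (σ i m))) ∧
    (¬ LinearIndependent ℚ σ → Commute (Exp fun m => bri (σ 0 m)) (Exp fun m => bri (σ 1 m))) := by
  have h1 := two_cases lp_kk (fun i m => bri (σ i m)) (fun i m => kk_grt (h i m)) (fun i m u hu =>
    hw i m _ ((co_bri_ne _ _).1 hu))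
  have h2 : LinearIndependent ℚ (fun i m => bri (σ i m) : Fin 2 → ℕ → A) ↔ LinearIndependent ℚ σ := by
    have e1 : (fun i m => bri (σ i m) : Fin 2 → ℕ → A) = ![fun m => bri (σ 0 m), fun m => bri (σ 1 m)] := by
      funext i
      match i with
      | 0 => rfl
      | 1 => rfl
    have e2 : σ = ![σ 0, σ 1] := by
      funext i
      match i with
      | 0 => rfl
      | 1 => rfl
    have e3 : LinearIndependent ℚ σ ↔ LinearIndependent ℚ ![σ 0, σ 1] := by rw [← e2]
    rw [e1, e3, LinearIndependent.pair_iff, LinearIndependent.pair_iff]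
    have e4 : ∀ α β : ℚ, (α • (fun m => bri (σ 0 m)) + β • (fun m => bri (σ 1 m)) : ℕ → A) = 0 ↔
        α • σ 0 + β • σ 1 = 0 := by
      intro α β
      constructor
      · intro h5
        funext m
        apply bri_injective
        have h6 := congrFun h5 m
        rw [Pi.add_apply, Pi.smul_apply, Pi.smul_apply, map_add, map_smul, map_smul]
        rw [Pi.zero_apply, map_zero]
        exact h6
      · intro h5
        funext m
        have h6 := congrArg bri (congrFun h5 m)
        rw [Pi.add_apply, Pi.smul_apply, Pi.smul_apply, map_add, map_smul, map_smul, Pi.zero_apply,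
          map_zero] at h6
        exact h6
    simp only [e4]
  rw [h2] at h1
  exact h1

end Pool.Agent.D0H34.GR
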